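import Pool.Agent.R597.Scft
import Pool.Agent.R597.Wo

/-!
# The strong countable fan tightness game on spaces of continuous functions and forcing

Every notion of forcing preserves the statement that player II has a winning strategy in the
strong countable fan tightness game at every point of the space `C_p(X, Z)` of the continuous
functions from `X` to `Z` with the topology of pointwise convergence, for all topological spaces
`X` and `Z` of the ground model; with `Z = ℝ` this is `C_p(X)`. (Properness is not needed.) The
ground model is a transitive model `M` of ZFC, the notion of forcing is in `M`, and `ext M G` is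
the generic extension `M[G]`.
-/

set_option autoImplicit false

namespace Pool.Agent.Results.MP_abf503_lc.FanTightnessCp

open Pool.Agent.W868 Pool.Agent.W868.GM Pool.Agent.Y588 Pool.Agent.R597
open ZFSet (pair)

/-- The set of the elements of `X` that the function `f` maps into `O`. -/
noncomputable def preim (X f O : ZFSet.{0}) : ZFSet.{0} :=
  ZFSet.sep (fun a => ∃ b ∈ O, pair a b ∈ f) X

/-- In the model `M`, `f` is a continuous function from the space `X` with the topology `σ` to
the space `Z` with the topology `ρ`. -/
def IsCont (M : Set ZFSet.{0}) (X σ Z ρ f : ZFSet.{0}) : Prop :=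
  f ∈ M ∧ ZFSet.IsFunc X Z f ∧ ∀ O ∈ ρ, preim X f O ∈ σ

/-- The set of the functions `f` in `C` with `f(a) ∈ O`. -/
noncomputable def box (C a O : ZFSet.{0}) : ZFSet.{0} :=
  ZFSet.sep (fun f => ∃ b ∈ O, pair a b ∈ f) C

/-- In the model `M`, `C` is the set of the continuous functions from `(X, σ)` to `(Z, ρ)` and `τ`
is the topology of pointwise convergence on `C`, the coarsest topology on `C` in which all the
sets of the form `{f ∈ C | f(a) ∈ O}` with `a ∈ X` and `O ∈ ρ` are open. -/
structure IsCp (M : Set ZFSet.{0}) (X σ Z ρ C τ : ZFSet.{0}) : Prop where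
  mem : ∀ f, f ∈ C ↔ IsCont M X σ Z ρ f
  isTop : IsTop M C τ
  box_mem : ∀ a ∈ X, ∀ O ∈ ρ, box C a O ∈ τ
  least : ∀ τ', IsTop M C τ' → (∀ a ∈ X, ∀ O ∈ ρ, box C a O ∈ τ') → τ ⊆ τ'

/-- Every notion of forcing preserves that player II wins the strong countable fan tightness game
at every point of the space of the continuous functions from `X` to `Z`. -/
theorem result (M : Set ZFSet.{0}) (hM : IsZFC M) (P Le : ZFSet.{0}) (hP : IsForcing M P Le)
    (G : ZFSet.{0}) (hG : IsGeneric M P Le G) (X σ Z ρ : ZFSet.{0}) (_ : IsTop M X σ)
    (_ : IsTop M Z ρ) (C τ : ZFSet.{0}) (hC : IsCp M X σ Z ρ C τ)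
    (h : ∀ y ∈ C, IIWins M C τ y) : ∀ y ∈ C, IIWins (ext M G) C τ y := fun y hy =>
  iiWins_up hM (isZFC_ext hM hP hG) (sub_ext hM.toIsZF hP hG) hC.isTop.set_mem hC.isTop.top_mem
    (hM.trans _ hC.isTop.set_mem _ hy) hC.isTop.sub (h y hy)

end Pool.Agent.Results.MP_abf503_lc.FanTightnessCp
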